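import Pool.Agent.H500.ED.Stm

set_option autoImplicit false

/-!
# Project ED (helper500), part E5: `S_SEM`

A representation which is diagonal on a subgroup of finite index is semisimple.

A stable subspace `W` has a complement spanned by basis vectors, which is stable under the diagonal
subgroup `U`; average the projection over the cosets of `U`.
-/

namespace Pool.Agent.H996.ED.SEM

/-- a complement spanned by basis vectors -/
theorem exists_compl {C : Type} [Field C] {n : ℕ} (W : Submodule C (Fin n → C)) :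
    ∃ (κ : Type) (a : κ → Fin n), IsCompl W
      (Submodule.span C (Set.range fun j => (Pi.single (a j) 1 : Fin n → C))) := by
  obtain ⟨κ, a, ha, h1, h2⟩ := exists_linearIndependent' C
    (fun i : Fin n => W.mkQ (Pi.single i 1))
  refine ⟨κ, a, ?_⟩
  have h3 : Set.range ((fun i : Fin n => W.mkQ (Pi.single i 1)) ∘ a) =
      W.mkQ '' (Set.range fun j => (Pi.single (a j) 1 : Fin n → C)) := by
    rw [← Set.range_comp]
    rfl
  constructor
  · rw [Submodule.disjoint_def]
    intro x hx hx'
    rw [Finsupp.mem_span_range_iff_exists_finsupp] at hx'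
    obtain ⟨c, rfl⟩ := hx'
    have h4 : W.mkQ (c.sum fun i r => r • (Pi.single (a i) 1 : Fin n → C)) = 0 := by
      rw [Submodule.mkQ_apply, Submodule.Quotient.mk_eq_zero]
      exact hx
    rw [linearIndependent_iff] at h2
    have h5 := h2 c (by
      rw [Finsupp.linearCombination_apply, ← h4, Finsupp.sum, Finsupp.sum, map_sum]
      refine Finset.sum_congr rfl fun i _ => ?_
      rw [map_smul]
      rfl)
    rw [h5, Finsupp.sum_zero_index]
  · rw [codisjoint_iff, eq_top_iff]
    intro x _
    have h4 : W.mkQ x ∈ Submodule.span C (Set.range ((fun i : Fin n =>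
        W.mkQ (Pi.single i 1)) ∘ a)) := by
      rw [h1]
      have h5 : x = ∑ i, x i • (Pi.single i 1 : Fin n → C) := (pi_eq_sum_univ' x)
      rw [h5, map_sum]
      refine Submodule.sum_mem _ fun i _ => ?_
      rw [map_smul]
      exact Submodule.smul_mem _ _ (Submodule.subset_span ⟨i, rfl⟩)
    rw [h3, Submodule.span_image] at h4
    obtain ⟨y, hy, hxy⟩ := h4
    rw [Submodule.mem_sup]
    refine ⟨x - y, ?_, y, hy, by ring⟩
    rw [← Submodule.Quotient.mk_eq_zero W, Submodule.Quotient.mk_sub, sub_eq_zero]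
    exact hxy.symm

/-- averaging over the cosets -/
theorem average {G : Type} [Group G] (U : Subgroup G) (hU : U.FiniteIndex) {C V : Type} [Field C]
    [CharZero C] [AddCommGroup V] [Module C V] (A : G →* Module.End C V) (W : Submodule C V)
    (hW : ∀ g, ∀ w ∈ W, A g w ∈ W) (P : Module.End C V) (hP1 : ∀ v, P v ∈ W)
    (hP2 : ∀ w ∈ W, P w = w) (hP3 : ∀ u ∈ U, ∀ v, P (A u v) = A u (P v)) :
    ∃ W' : Submodule C V, (∀ g, ∀ w ∈ W', A g w ∈ W') ∧ IsCompl W W' := by
  classical
  have hAA : ∀ g v, A g (A g⁻¹ v) = v := by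
    intro g v
    rw [← Module.End.mul_apply, ← map_mul, mul_inv_cancel, map_one, Module.End.one_apply]
  have hAA' : ∀ g v, A g⁻¹ (A g v) = v := by
    intro g v
    rw [← Module.End.mul_apply, ← map_mul, inv_mul_cancel, map_one, Module.End.one_apply]
  -- the conjugates of `P`
  obtain ⟨F, hF⟩ : ∃ F : G → Module.End C V, ∀ g, F g = A g * P * A g⁻¹ := ⟨_, fun _ => rfl⟩
  have hFU : ∀ g, ∀ u ∈ U, F (g * u) = F g := by
    intro g u hu
    apply LinearMap.ext
    intro v
    rw [hF, hF, Module.End.mul_apply, Module.End.mul_apply, Module.End.mul_apply,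
      Module.End.mul_apply, mul_inv_rev, map_mul, map_mul, Module.End.mul_apply,
      Module.End.mul_apply, hP3 u⁻¹ (U.inv_mem hu), hAA]
  have hF2 : ∀ g g' : G, (QuotientGroup.mk g : G ⧸ U) = QuotientGroup.mk g' → F g = F g' := by
    intro g g' h
    rw [QuotientGroup.eq] at h
    have h1 := hFU g _ h
    rw [mul_inv_cancel_left] at h1
    exact h1.symm
  obtain ⟨f, hf⟩ : ∃ f : G ⧸ U → Module.End C V, ∀ g, f (QuotientGroup.mk g) = F g :=
    ⟨fun q => F q.out, fun g => hF2 _ _ (Quotient.out_eq _)⟩
  have hfin : Finite (G ⧸ U) := Subgroup.finite_quotient_of_finiteIndex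
  have hft : Fintype (G ⧸ U) := Fintype.ofFinite _
  have hF0 : ∀ g v, F g v ∈ W := by
    intro g v
    rw [hF, Module.End.mul_apply, Module.End.mul_apply]
    exact hW g _ (hP1 _)
  have hF1 : ∀ g, ∀ w ∈ W, F g w = w := by
    intro g w hw
    rw [hF, Module.End.mul_apply, Module.End.mul_apply, hP2 _ (hW g⁻¹ w hw), hAA]
  have hF4 : ∀ h g v, A h (F g v) = F (h * g) (A h v) := by
    intro h g v
    rw [hF, hF, Module.End.mul_apply, Module.End.mul_apply, Module.End.mul_apply,
      Module.End.mul_apply, mul_inv_rev, map_mul, map_mul, Module.End.mul_apply,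
      Module.End.mul_apply, hAA']
  obtain ⟨Q, hQ⟩ : ∃ Q : Module.End C V, Q = ((Fintype.card (G ⧸ U) : C))⁻¹ • ∑ q, f q :=
    ⟨_, rfl⟩
  have hcard : (Fintype.card (G ⧸ U) : C) ≠ 0 := by
    have : Fintype.card (G ⧸ U) ≠ 0 := Fintype.card_ne_zero
    exact_mod_cast this
  have hQv : ∀ v, Q v = ((Fintype.card (G ⧸ U) : C))⁻¹ • ∑ q, f q v := by
    intro v
    rw [hQ, LinearMap.smul_apply, LinearMap.sum_apply]
  have hQ0 : ∀ v, Q v ∈ W := by
    intro v
    rw [hQv]
    refine W.smul_mem _ (W.sum_mem fun q _ => ?_)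
    obtain ⟨g, rfl⟩ := QuotientGroup.mk_surjective q
    rw [hf]
    exact hF0 g v
  have hQ1 : ∀ w ∈ W, Q w = w := by
    intro w hw
    rw [hQv]
    have h1 : ∀ q : G ⧸ U, f q w = w := by
      intro q
      obtain ⟨g, rfl⟩ := QuotientGroup.mk_surjective q
      rw [hf]
      exact hF1 g w hw
    rw [Finset.sum_congr rfl fun q _ => h1 q, Finset.sum_const, Finset.card_univ,
      ← Nat.cast_smul_eq_nsmul C, smul_smul, inv_mul_cancel₀ hcard, one_smul]
  have hQ2 : ∀ h v, Q (A h v) = A h (Q v) := by
    intro h v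
    rw [hQv, hQv, map_smul, map_sum]
    congr 1
    have h1 : ∀ q : G ⧸ U, A h (f q v) = f (h • q) (A h v) := by
      intro q
      obtain ⟨g, rfl⟩ := QuotientGroup.mk_surjective q
      have h2 : h • (QuotientGroup.mk g : G ⧸ U) = QuotientGroup.mk (h * g) := rfl
      rw [h2, hf, hf, hF4]
    rw [Finset.sum_congr rfl fun q _ => h1 q]
    exact (Equiv.sum_comp (MulAction.toPerm h : Equiv.Perm (G ⧸ U))
      (fun q => f q (A h v))).symm
  refine ⟨LinearMap.ker (Q.codRestrict W hQ0), ?_, ?_⟩
  · intro g w hw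
    rw [LinearMap.mem_ker] at hw ⊢
    have h1 : Q w = 0 := congrArg Subtype.val hw
    apply Subtype.ext
    change Q (A g w) = 0
    rw [hQ2, h1, map_zero]
  · refine LinearMap.isCompl_of_proj fun x => ?_
    apply Subtype.ext
    exact hQ1 x x.2

theorem main' (G : Type) [Group G] (U : Subgroup G) (n : ℕ) (C : Type) [Field C]
    [CharZero C] (R : G →* GL (Fin n) C) (hU : U.FiniteIndex)
    (hd : ∀ u ∈ U, (R u : Matrix (Fin n) (Fin n) C).IsDiag) : Pool.Agent.H500.ZO.SemiS R := by
  intro W hW
  obtain ⟨A, hA⟩ : ∃ A : G →* Module.End C (Fin n → C), ∀ g v,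
      A g v = (R g : Matrix (Fin n) (Fin n) C).mulVec v := by
    refine ⟨{ toFun := fun g => Matrix.mulVecLin (R g : Matrix (Fin n) (Fin n) C)
              map_one' := ?_
              map_mul' := ?_ }, fun g v => rfl⟩
    · apply LinearMap.ext
      intro v
      rw [map_one, Matrix.mulVecLin_apply, Units.val_one, Matrix.one_mulVec]
      rfl
    · intro g h
      apply LinearMap.ext
      intro v
      rw [map_mul, Matrix.mulVecLin_apply, Units.val_mul, ← Matrix.mulVec_mulVec]
      rfl
  obtain ⟨κ, a, hc⟩ := exists_compl W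
  have hst : ∀ u ∈ U, ∀ v ∈ Submodule.span C (Set.range fun j =>
      (Pi.single (a j) 1 : Fin n → C)), A u v ∈ Submodule.span C (Set.range fun j =>
      (Pi.single (a j) 1 : Fin n → C)) := by
    intro u hu v hv
    have h1 : Submodule.span C (Set.range fun j => (Pi.single (a j) 1 : Fin n → C)) ≤
        (Submodule.span C (Set.range fun j =>
          (Pi.single (a j) 1 : Fin n → C))).comap (A u) := by
      rw [Submodule.span_le]
      rintro _ ⟨j, rfl⟩
      rw [SetLike.mem_coe, Submodule.mem_comap]
      have h2 : A u (Pi.single (a j) 1 : Fin n → C) =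
          (R u : Matrix (Fin n) (Fin n) C) (a j) (a j) • (Pi.single (a j) 1 : Fin n → C) := by
        rw [hA, Matrix.mulVec_single_one]
        funext i
        rw [Matrix.col_apply, Pi.smul_apply, smul_eq_mul, Pi.single_apply]
        split_ifs with h3
        · rw [h3, mul_one]
        · rw [mul_zero]
          exact hd u hu h3
      dsimp only
      rw [h2]
      exact Submodule.smul_mem _ _ (Submodule.subset_span ⟨j, rfl⟩)
    exact h1 hv
  have hWA : ∀ g, ∀ w ∈ W, A g w ∈ W := by
    intro g w hw
    rw [hA]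
    exact hW g w hw
  obtain ⟨W', h1, h2⟩ := average U hU A W hWA (W.projection _ hc)
    (fun v => Submodule.projection_apply_mem hc v)
    (fun w hw => Submodule.projection_apply_of_mem_left hc hw) (fun u hu v => by
      obtain ⟨w, w0, hw, hw0, h3⟩ :=
        Submodule.codisjoint_iff_exists_add_eq.1 hc.codisjoint v
      rw [← h3, map_add, map_add, map_add, map_add,
        Submodule.projection_apply_of_mem_left hc hw,
        Submodule.projection_apply_of_mem_right hc hw0,
        Submodule.projection_apply_of_mem_left hc (hWA u w hw),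
        Submodule.projection_apply_of_mem_right hc (hst u hu w0 hw0), map_zero])
  refine ⟨W', fun g w hw => ?_, h2⟩
  rw [← hA]
  exact h1 g w hw

/-- PART E5 -/
theorem main : Pool.Agent.H500.ED.S_SEM :=
  fun G _ U n C _ _ R hU hd => main' G U n C R hU hd

end Pool.Agent.H996.ED.SEM
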